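import Mathlib
import Pool.Agent.N852.EL.Pol2

/-!
Project EL, part G, first file: the sets of the points of the bad loci, scaling, the points of the
linear subspaces, the grid.
-/

namespace Pool.Agent.N196.EL

set_option linter.unusedSectionVars false

open Matrix Module Filter Topology Function
open Pool.Agent.N852.MM Pool.Agent.N852.EL

variable {V : Type} [DecidableEq V] {n : V → ℕ} {k : ℕ}

/-- The extension by zero. -/
def hat (u : V) (x : ∀ t : {v : V // v ≠ u}, Fin (n t.1) → ℂ) : Tup n ℂ :=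
  fun v => if h : v = u then 0 else x ⟨v, h⟩

theorem zu_update (F : Sys n k) (u : V) (x : Tup n ℂ) (z : Fin (n u) → ℂ) (s : Wi F u → ℂ) :
    Zu F u (update x u z) s ↔ Zu F u x s := by
  unfold Zu
  rw [incN_update, der_update]

theorem hat_eq (u : V) (x : Tup n ℂ) : hat u (fun t => x t.1) = update x u 0 := by
  funext v
  unfold hat
  by_cases h : v = u
  · subst h
    rw [dif_pos rfl, update_self]
  · rw [dif_neg h, update_of_ne h]

/-- The points of the bad locus. -/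
def Wu (F : Sys n k) (u : V) : Set (∀ t : {v : V // v ≠ u}, Fin (n t.1) → ℂ) :=
  {x | (∀ t, x t ≠ 0) ∧ ∃ s : Wi F u → ℂ, s ≠ 0 ∧ Zu F u (hat u x) s}

theorem Wu_smul {F : Sys n k} {u : V} {x : ∀ t : {v : V // v ≠ u}, Fin (n t.1) → ℂ}
    (hx : x ∈ Wu F u) (a : {v : V // v ≠ u} → ℂ) (ha : ∀ t, a t ≠ 0) :
    (fun t => a t • x t) ∈ Wu F u := by
  obtain ⟨h1, s, hs, h2, h3⟩ := hx
  set c : V → ℂ := fun v => if h : v = u then 1 else a ⟨v, h⟩ with hc
  have hc0 : ∀ v, c v ≠ 0 := by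
    intro v
    rw [hc]
    by_cases h : v = u
    · simp only [dif_pos h]
      exact one_ne_zero
    · simp only [dif_neg h]
      exact ha _
  have he : hat u (fun t => a t • x t) = fun v => c v • hat u x v := by
    funext v
    unfold hat
    rw [hc]
    by_cases h : v = u
    · simp only [dif_pos h, smul_zero]
    · simp only [dif_neg h]
  refine ⟨fun t => smul_ne_zero (ha t) (h1 t),
    fun i => s i * (∏ w ∈ (F.e i.1).erase u, c w)⁻¹, ?_, ?_, ?_⟩
  · intro h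
    apply hs
    funext i
    have h4 := congrFun h i
    have h5 : (∏ w ∈ (F.e i.1).erase u, c w)⁻¹ ≠ 0 :=
      inv_ne_zero (Finset.prod_ne_zero_iff.2 fun w _ => hc0 w)
    exact (mul_eq_zero.1 h4).resolve_right h5
  · rw [he]
    intro i hi
    rw [ev_smul, h2 i hi, mul_zero]
  · intro l
    rw [he, ← h3 l]
    refine Finset.sum_congr rfl fun i _ => ?_
    have h4 : der F u (fun v => c v • hat u x v) i =
        (∏ w ∈ (F.e i.1).erase u, c w) • der F u (hat u x) i := dd_smul i.1 i.2 c (hat u x)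
    have h5 : (∏ w ∈ (F.e i.1).erase u, c w) ≠ 0 :=
      Finset.prod_ne_zero_iff.2 fun w _ => hc0 w
    rw [h4, Pi.smul_apply, smul_eq_mul]
    field_simp

theorem lc_first {r m : ℕ} (A : Fin r → Fin m → ℂ) (z : Fin r → ℂ) (j : Fin r)
    (h : (j : ℕ) < m) : lc A z ⟨j, h⟩ = z j := by
  unfold lc gr
  rw [Finset.sum_eq_single j]
  · simp
  · intro j' _ hj
    have h1 : ¬ ((j : ℕ) = (j' : ℕ)) := fun h' => hj (Fin.ext h'.symm)
    simp [h1]
  · intro h'
    exact absurd (Finset.mem_univ _) h'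

theorem lc_ne {r m : ℕ} (hrm : r ≤ m) (A : Fin r → Fin m → ℂ) {z : Fin r → ℂ} (hz : z ≠ 0) :
    lc A z ≠ 0 := by
  intro h
  apply hz
  funext j
  rw [← lc_first A z j (lt_of_lt_of_le j.2 hrm), h]
  rfl

/-- If the bad locus is never empty, its set of points meets all linear subspaces. -/
theorem Wu_meets {F : Sys n k} {u : V} {r : ℕ} (hr : ∀ v, r ≤ n v)
    (hno : ∀ A : ∀ v, Fin r → Fin (n v) → ℂ, ∃ x, Bu F A u ∅ x)
    (A : ∀ t : {v : V // v ≠ u}, Fin r → Fin (n t.1) → ℂ) :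
    ∃ z : ∀ _ : {v : V // v ≠ u}, Fin r → ℂ, (∀ t, z t ≠ 0) ∧
      (fun t => lc (A t) (z t)) ∈ Wu F u := by
  set A' : ∀ v, Fin r → Fin (n v) → ℂ := fun v => if h : v = u then 0 else A ⟨v, h⟩ with hA'
  have e1 : ∀ t : {v : V // v ≠ u}, A' t.1 = A t := by
    intro t
    rw [hA']
    exact dif_neg t.2
  obtain ⟨x, z, s, hz, hs, h⟩ := hno A'
  rw [mx_empty] at h
  refine ⟨fun t => z t.1, fun t => hz t.1, fun t => lc_ne (hr t.1) _ (hz t.1), s, hs, ?_⟩
  have e2 : (fun t : {v : V // v ≠ u} => lc (A t) (z t.1)) =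
      fun t : {v : V // v ≠ u} => (fun v => lc (A' v) (z v) : Tup n ℂ) t.1 := by
    funext t
    show lc (A t) (z t.1) = lc (A' t.1) (z t.1)
    rw [e1 t]
  have e3 : hat u (fun t : {v : V // v ≠ u} => lc (A t) (z t.1)) =
      update (fun v => lc (A' v) (z v)) u 0 := by
    rw [e2]
    exact hat_eq u (fun v => lc (A' v) (z v) : Tup n ℂ)
  rw [e3, zu_update]
  exact h

/-! ### The grid -/

/-- The points of the grid. -/
noncomputable def gp (M : ℕ) (p : Fin M × Fin M) : ℂ :=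
  ⟨1 + (p.1 : ℝ) / M, (p.2 : ℝ) / M⟩

theorem gp_norm (M : ℕ) (p : Fin M × Fin M) : 1 ≤ ‖gp M p‖ ∧ ‖gp M p‖ ≤ 3 := by
  have hM : (0 : ℝ) < M := by
    have : 0 < M := lt_of_le_of_lt (Nat.zero_le _) p.1.2
    exact_mod_cast this
  have h1 : (0 : ℝ) ≤ (p.1 : ℝ) / M := by positivity
  have h2 : (0 : ℝ) ≤ (p.2 : ℝ) / M := by positivity
  have h3 : (p.1 : ℝ) / M ≤ 1 := by
    rw [div_le_one hM]
    exact_mod_cast p.1.2.le
  have h4 : (p.2 : ℝ) / M ≤ 1 := by
    rw [div_le_one hM]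
    exact_mod_cast p.2.2.le
  constructor
  · have h5 : |(gp M p).re| ≤ ‖gp M p‖ := Complex.abs_re_le_norm _
    have h6 : (gp M p).re = 1 + (p.1 : ℝ) / M := rfl
    rw [h6] at h5
    have h7 := le_abs_self (1 + (p.1 : ℝ) / M)
    linarith
  · have h5 := Complex.norm_le_abs_re_add_abs_im (gp M p)
    have h6 : (gp M p).re = 1 + (p.1 : ℝ) / M := rfl
    have h7 : (gp M p).im = (p.2 : ℝ) / M := rfl
    rw [h6, h7, abs_of_nonneg (by linarith), abs_of_nonneg h2] at h5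
    linarith

theorem gp_sep (M : ℕ) {p q : Fin M × Fin M} (h : p ≠ q) : 1 / (M : ℝ) ≤ ‖gp M p - gp M q‖ := by
  have hM : (0 : ℝ) < M := by
    have : 0 < M := lt_of_le_of_lt (Nat.zero_le _) p.1.2
    exact_mod_cast this
  have key : ∀ a b : Fin M, a ≠ b → 1 / (M : ℝ) ≤ |(a : ℝ) / M - (b : ℝ) / M| := by
    intro a b hab
    rw [← sub_div, abs_div, abs_of_pos hM]
    refine div_le_div_of_nonneg_right ?_ hM.le
    have h1 : ((a : ℕ) : ℤ) - ((b : ℕ) : ℤ) ≠ 0 := by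
      intro h'
      apply hab
      apply Fin.ext
      omega
    have h2 : (1 : ℤ) ≤ |((a : ℕ) : ℤ) - ((b : ℕ) : ℤ)| := Int.one_le_abs h1
    have h3 : ((1 : ℤ) : ℝ) ≤ ((|((a : ℕ) : ℤ) - ((b : ℕ) : ℤ)| : ℤ) : ℝ) := by exact_mod_cast h2
    rw [Int.cast_abs] at h3
    push_cast at h3
    exact h3
  by_cases h1 : p.1 = q.1
  · have h2 : p.2 ≠ q.2 := fun h2 => h (Prod.ext h1 h2)
    refine (key _ _ h2).trans ?_
    have h3 : (gp M p - gp M q).im = (p.2 : ℝ) / M - (q.2 : ℝ) / M := rfl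
    rw [← h3]
    exact Complex.abs_im_le_norm _
  · refine (key _ _ h1).trans ?_
    have h3 : (gp M p - gp M q).re = (p.1 : ℝ) / M - (q.1 : ℝ) / M := by
      show (1 + (p.1 : ℝ) / M) - (1 + (q.1 : ℝ) / M) = _
      ring
    rw [← h3]
    exact Complex.abs_re_le_norm _

end Pool.Agent.N196.EL
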