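import Mathlib
import Pool.Agent.N196.EL.Gen1

/-!
Project EL, part G, second file: the points of the bad loci in the coordinates of `SepUpP`.
-/

namespace Pool.Agent.N196.EL

set_option linter.unusedSectionVars false

open Matrix Module Filter Topology Function
open Pool.Agent.N852.MM Pool.Agent.N852.EL

variable {V : Type} [DecidableEq V] {n : V → ℕ} {k : ℕ}

theorem norm_reindex {ι κ : Type*} [Fintype ι] [Fintype κ] (e : κ ≃ ι) (s : ι → ℂ) :
    ‖fun j => s (e j)‖ = ‖s‖ := by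
  apply le_antisymm
  · rw [pi_norm_le_iff_of_nonneg (norm_nonneg _)]
    intro j
    exact norm_le_pi_norm s (e j)
  · rw [pi_norm_le_iff_of_nonneg (norm_nonneg _)]
    intro i
    have h := norm_le_pi_norm (fun j => s (e j)) (e.symm i)
    rwa [e.apply_symm_apply] at h

/-- The points. -/
noncomputable def py (F : Sys n k) (u : V) (x : ∀ t : {v : V // v ≠ u}, Fin (n t.1) → ℂ)
    (s : Wi F u → ℂ) (b : ℂ) : Yu F u
  | none => fun j => b * s ((Fintype.equivFin (Wi F u)).symm j)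
  | some v => x v

variable {F : Sys n k} {u : V}

theorem py_some (x : ∀ t : {v : V // v ≠ u}, Fin (n t.1) → ℂ) (s : Wi F u → ℂ) (b : ℂ)
    (v : {v : V // v ≠ u}) : py F u x s b (some v) = x v := rfl

theorem py_none (x : ∀ t : {v : V // v ≠ u}, Fin (n t.1) → ℂ) (s : Wi F u → ℂ) (b : ℂ) :
    py F u x s b none = fun j => b * s ((Fintype.equivFin (Wi F u)).symm j) := rfl

theorem norm_py_none (x : ∀ t : {v : V // v ≠ u}, Fin (n t.1) → ℂ) (s : Wi F u → ℂ) (b : ℂ) :
    ‖py F u x s b none‖ = ‖b‖ * ‖s‖ := by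
  have h1 : ‖(b • (fun j => s ((Fintype.equivFin (Wi F u)).symm j)) :
      Fin (Fintype.card (Wi F u)) → ℂ)‖ = ‖b‖ * ‖s‖ := by
    rw [norm_smul, norm_reindex (Fintype.equivFin (Wi F u)).symm s]
  exact h1

theorem xu_py (x : ∀ t : {v : V // v ≠ u}, Fin (n t.1) → ℂ) (s : Wi F u → ℂ) (b : ℂ) :
    xu F u (py F u x s b) = hat u x := rfl

theorem su_py (x : ∀ t : {v : V // v ≠ u}, Fin (n t.1) → ℂ) (s : Wi F u → ℂ) (b : ℂ)
    (i : Wi F u) : su F u (py F u x s b) i = b * s i := by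
  have h1 : su F u (py F u x s b) i =
      b * s ((Fintype.equivFin (Wi F u)).symm (Fintype.equivFin (Wi F u) i)) := rfl
  rw [h1, Equiv.symm_apply_apply]

theorem Phi_py {x : ∀ t : {v : V // v ≠ u}, Fin (n t.1) → ℂ} {s : Wi F u → ℂ}
    (h : Zu F u (hat u x) s) (b : ℂ) : Phi F u (py F u x s b) = 0 := by
  unfold Phi
  rw [xu_py]
  refine Prod.ext ?_ ?_
  · funext i
    exact h.1 i.1 i.2
  · funext l
    show ∑ i, su F u (py F u x s b) i * der F u (hat u x) i l = 0
    have h1 : ∑ i, su F u (py F u x s b) i * der F u (hat u x) i l =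
        b * ∑ i, s i * der F u (hat u x) i l := by
      rw [Finset.mul_sum]
      refine Finset.sum_congr rfl fun i _ => ?_
      rw [su_py]
      ring
    rw [h1, h.2 l, mul_zero]

theorem exists_unit {x : ∀ t : {v : V // v ≠ u}, Fin (n t.1) → ℂ} (hx : x ∈ Wu F u) :
    ∃ s : Wi F u → ℂ, ‖s‖ = 1 ∧ Zu F u (hat u x) s := by
  obtain ⟨_, s, hs, h1, h2⟩ := hx
  have hn : ‖s‖ ≠ 0 := norm_ne_zero_iff.2 hs
  refine ⟨((‖s‖⁻¹ : ℝ) : ℂ) • s, ?_, h1, fun l => ?_⟩
  · rw [norm_smul, Complex.norm_real, norm_inv, norm_norm, inv_mul_cancel₀ hn]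
  · have h3 : ∑ i, (((‖s‖⁻¹ : ℝ) : ℂ) • s) i * der F u (hat u x) i l =
        ((‖s‖⁻¹ : ℝ) : ℂ) * ∑ i, s i * der F u (hat u x) i l := by
      rw [Finset.mul_sum]
      refine Finset.sum_congr rfl fun i _ => ?_
      rw [Pi.smul_apply, smul_eq_mul]
      ring
    rw [h3, h2 l, mul_zero]

section

variable [Fintype V]

theorem dist_py_le (x x' : ∀ t : {v : V // v ≠ u}, Fin (n t.1) → ℂ) (s s' : Wi F u → ℂ)
    (b b' : ℂ) : dist x x' ≤ dist (py F u x s b) (py F u x' s' b') := by
  rw [dist_pi_le_iff dist_nonneg]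
  intro t
  have h := dist_le_pi_dist (py F u x s b) (py F u x' s' b') (some t)
  exact h

theorem dist_py_same (x : ∀ t : {v : V // v ≠ u}, Fin (n t.1) → ℂ) (s : Wi F u → ℂ)
    (b b' : ℂ) : ‖b - b'‖ * ‖s‖ ≤ dist (py F u x s b) (py F u x s b') := by
  have h := dist_le_pi_dist (py F u x s b) (py F u x s b') none
  refine le_trans (le_of_eq ?_) h
  rw [dist_eq_norm]
  have h1 : py F u x s b none - py F u x s b' none = py F u x s (b - b') none := by
    funext j
    show b * _ - b' * _ = (b - b') * _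
    ring
  rw [h1, norm_py_none]

theorem finrank_fin (m : ℕ) : finrank ℝ (Fin m → ℂ) = 2 * m := by
  rw [Module.finrank_pi_fintype, Finset.sum_const, Complex.finrank_real_complex, Finset.card_univ,
    Fintype.card_fin, smul_eq_mul, mul_comm]

theorem finrank_Yu : finrank ℝ (Yu F u) = 2 * (dg F u + ∑ t : {v : V // v ≠ u}, n t.1) := by
  rw [Module.finrank_pi_fintype, Fintype.sum_option]
  simp only [finrank_fin]
  rw [← Finset.mul_sum]
  show 2 * dg F u + 2 * ∑ t : {v : V // v ≠ u}, n t.1 = _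
  ring

theorem card_not : Fintype.card {i : Fin k // u ∉ F.e i} = k - dg F u := by
  have h := Fintype.card_subtype_compl (fun i : Fin k => u ∈ F.e i)
  rw [Fintype.card_fin] at h
  exact h

theorem dg_le : dg F u ≤ k := by
  have h := Fintype.card_subtype_le (fun i : Fin k => u ∈ F.e i)
  rw [Fintype.card_fin] at h
  exact h

theorem finrank_E' : finrank ℝ (({i : Fin k // u ∉ F.e i} → ℂ) × (Fin (n u) → ℂ)) =
    2 * ((k - dg F u) + n u) := by
  rw [Module.finrank_prod, finrank_fin, Module.finrank_pi_fintype, Finset.sum_const,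
    Complex.finrank_real_complex, Finset.card_univ, card_not, smul_eq_mul]
  ring

end

end Pool.Agent.N196.EL
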