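import Mathlib
import Pool.Agent.N196.EL.Gen2

/-!
Project EL, part G: there are rational linear subspaces without bad points.
-/

namespace Pool.Agent.N196.EL

set_option linter.unusedSectionVars false

open Matrix Module Filter Topology Function MvPolynomial
open Pool.Agent.N852.MM Pool.Agent.N852.EL

/-- A shell is compact. -/
theorem shell_compact (m : ℕ) (C : ℝ) : IsCompact {y : Fin m → ℂ | 1 ≤ ‖y‖ ∧ ‖y‖ ≤ C} := by
  refine IsCompact.of_isClosed_subset (isCompact_closedBall (0 : Fin m → ℂ) C) ?_ ?_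
  · exact (isClosed_le continuous_const continuous_norm).inter
      (isClosed_le continuous_norm continuous_const)
  · intro y hy
    rw [mem_closedBall_zero_iff]
    exact hy.2

/-- The exponents. -/
theorem expo {V : Type} [Fintype V] [DecidableEq V] (n : V → ℕ) (D k g : ℕ) (u : V)
    (hn : ∀ v, D + 1 ≤ n v) (hg : g ≤ k)
    (hu : (Fintype.card V - 1) * D + 2 * g ≤ n u + k) :
    2 * (g + ∑ t : {v : V // v ≠ u}, n t.1) - 2 * ((k - g) + n u) + 1 ≤
      2 * ∑ t : {v : V // v ≠ u}, (n t.1 - (D + 1) + 1) + 2 := by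
  have h1 : ∑ t : {v : V // v ≠ u}, (n t.1 - (D + 1) + 1) + (Fintype.card V - 1) * D =
      ∑ t : {v : V // v ≠ u}, n t.1 := by
    have h2 : (Fintype.card V - 1) * D = ∑ _t : {v : V // v ≠ u}, D := by
      rw [Finset.sum_const, Finset.card_univ, smul_eq_mul]
      congr 1
      have h3 := Fintype.card_subtype_compl (fun v : V => v = u)
      rw [Fintype.card_subtype_eq] at h3
      exact h3.symm
    rw [h2, ← Finset.sum_add_distrib]
    refine Finset.sum_congr rfl fun t _ => ?_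
    have := hn t.1
    omega
  omega

theorem exA (hC : SepUpP) (hD : SepLowP) (hE : JacP) {V : Type} [Fintype V] [DecidableEq V]
    {n : V → ℕ} {k : ℕ} (F : Sys n k) (D : ℕ) (hSm : Sm F) (hn : ∀ v, D + 1 ≤ n v)
    (hdg : ∀ v, dg F v ≤ n v) (u : V)
    (hu : (Fintype.card V - 1) * D + 2 * dg F u ≤ n u + k) :
    ∃ A : ∀ v, Fin (D + 1) → Fin (n v) → ℂ, ∀ x, ¬ Bu F A u ∅ x := by
  by_contra hcon
  push Not at hcon
  obtain ⟨c, C₀, hc, hC₀, hlow⟩ := hD {v : V // v ≠ u} (fun t => n t.1) (fun _ => D + 1)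
    (fun _ => Nat.succ_pos _) (fun t => hn t.1)
  have hlow' := hlow (Wu F u) (fun x hx a ha => Wu_smul hx a ha) (fun A => Wu_meets hn hcon A)
  obtain ⟨hcont, hjac⟩ := hE V n k F hSm hdg u
  set C₁ : ℝ := max C₀ 3 with hC₁
  set K : Set (Yu F u) := Set.pi Set.univ
    fun t => {y : Fin (nu F u t) → ℂ | 1 ≤ ‖y‖ ∧ ‖y‖ ≤ C₁} with hKdef
  have hK : IsCompact K := isCompact_univ_pi fun t => shell_compact _ _
  obtain ⟨C, hCpos, hup⟩ := hC (Yu F u) (({i : Fin k // u ∉ F.e i} → ℂ) × (Fin (n u) → ℂ))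
    (Phi F u) K hK hcont (fun y hy h0 => hjac y (fun t => by
      have h1 : 1 ≤ ‖y t‖ := (hy t (Set.mem_univ t)).1
      intro h2
      rw [h2, norm_zero] at h1
      linarith) h0)
  rw [finrank_Yu, finrank_E'] at hup
  -- the choice of the coefficients
  have hs : ∀ x : (∀ t : {v : V // v ≠ u}, Fin (n t.1) → ℂ), ∃ s : Wi F u → ℂ,
      x ∈ Wu F u → (‖s‖ = 1 ∧ Zu F u (hat u x) s) := by
    intro x
    by_cases hx : x ∈ Wu F u
    · obtain ⟨s, hs⟩ := exists_unit hx
      exact ⟨s, fun _ => hs⟩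
    · exact ⟨0, fun h => absurd h hx⟩
  choose sx hsx using hs
  set L : ℕ := 2 * ∑ t : {v : V // v ≠ u}, (n t.1 - (D + 1) + 1) with hL
  set U : ℕ := 2 * (dg F u + ∑ t : {v : V // v ≠ u}, n t.1) - 2 * ((k - dg F u) + n u) with hU
  have hLU : U + 1 ≤ L + 2 := expo n D k (dg F u) u hn dg_le hu
  have key : ∀ μ : ℝ, 1 ≤ μ → c * μ ^ L * (μ / 2) ^ 2 ≤ C * μ ^ U := by
    intro μ hμ
    obtain ⟨P, hP1, hP2, hP3⟩ := hlow' μ hμ
    set M : ℕ := ⌊μ⌋₊ with hM
    have hM1 : 1 ≤ M := Nat.le_floor (by simpa using hμ)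
    have hM2 : (M : ℝ) ≤ μ := Nat.floor_le (by linarith)
    have hM3 : μ / 2 ≤ M := by
      have h1 : μ < M + 1 := Nat.lt_floor_add_one μ
      have h2 : (1 : ℝ) ≤ M := by exact_mod_cast hM1
      linarith
    have hM0 : (0 : ℝ) < M := by
      have h2 : (1 : ℝ) ≤ M := by exact_mod_cast hM1
      linarith
    have hμ0 : 0 < μ := by linarith
    classical
    set Y : (∀ t : {v : V // v ≠ u}, Fin (n t.1) → ℂ) × (Fin M × Fin M) → Yu F u :=
      fun q => py F u q.1 (sx q.1) (gp M q.2) with hY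
    have hsep : ∀ q ∈ P ×ˢ (Finset.univ : Finset (Fin M × Fin M)),
        ∀ q' ∈ P ×ˢ (Finset.univ : Finset (Fin M × Fin M)), q ≠ q' →
        1 / μ ≤ dist (Y q) (Y q') := by
      intro q hq q' hq' hne
      have hq1 := (Finset.mem_product.1 hq).1
      have hq1' := (Finset.mem_product.1 hq').1
      by_cases h1 : q.1 = q'.1
      · have h2 : q.2 ≠ q'.2 := fun h2 => hne (Prod.ext h1 h2)
        have h3 := dist_py_same (F := F) (u := u) q.1 (sx q.1) (gp M q.2) (gp M q'.2)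
        rw [(hsx q.1 (hP1 q.1 hq1).1).1, mul_one] at h3
        have h4 : Y q' = py F u q.1 (sx q.1) (gp M q'.2) := by
          rw [hY]
          simp only
          rw [h1]
        rw [h4]
        refine le_trans ?_ h3
        refine le_trans ?_ (gp_sep M h2)
        exact one_div_le_one_div_of_le hM0 hM2
      · exact (hP2 q.1 hq1 q'.1 hq1' h1).trans (dist_py_le _ _ _ _ _ _)
    have hinj : Set.InjOn Y (P ×ˢ (Finset.univ : Finset (Fin M × Fin M)) :
        Finset ((∀ t : {v : V // v ≠ u}, Fin (n t.1) → ℂ) × (Fin M × Fin M))) := by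
      intro q hq q' hq' h
      by_contra hne
      have h1 := hsep q hq q' hq' hne
      rw [h, dist_self] at h1
      have h2 : 0 < 1 / μ := by positivity
      linarith
    have hup' := hup μ ((P ×ˢ (Finset.univ : Finset (Fin M × Fin M))).image Y) hμ
      (by
        intro y hy
        obtain ⟨q, hq, rfl⟩ := Finset.mem_image.1 hy
        have hq1 := (Finset.mem_product.1 hq).1
        obtain ⟨hW, hn1⟩ := hP1 q.1 hq1
        obtain ⟨hs1, hs2⟩ := hsx q.1 hW
        refine ⟨?_, Phi_py hs2 _⟩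
        intro t _
        rcases t with _ | v
        · show 1 ≤ ‖py F u q.1 (sx q.1) (gp M q.2) none‖ ∧
            ‖py F u q.1 (sx q.1) (gp M q.2) none‖ ≤ C₁
          rw [norm_py_none, hs1, mul_one]
          exact ⟨(gp_norm M q.2).1, (gp_norm M q.2).2.trans (le_max_right _ _)⟩
        · exact ⟨(hn1 v).1, (hn1 v).2.trans (le_max_left _ _)⟩)
      (by
        intro y hy y' hy' hne
        obtain ⟨q, hq, rfl⟩ := Finset.mem_image.1 hy
        obtain ⟨q', hq', rfl⟩ := Finset.mem_image.1 hy'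
        exact hsep q hq q' hq' fun h => hne (by rw [h]))
    rw [Finset.card_image_of_injOn hinj, Finset.card_product, Finset.card_univ, Fintype.card_prod,
      Fintype.card_fin] at hup'
    push_cast at hup'
    calc c * μ ^ L * (μ / 2) ^ 2 ≤ (P.card : ℝ) * ((M : ℝ) * M) := by
          have h1 : (μ / 2) ^ 2 ≤ (M : ℝ) * M := by
            rw [sq]
            exact mul_le_mul hM3 hM3 (by positivity) hM0.le
          exact mul_le_mul hP3 h1 (by positivity) (Nat.cast_nonneg _)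
      _ ≤ C * μ ^ U := hup'
  have h4C : (0 : ℝ) < 4 * C / c + 1 := by positivity
  have hbig := key (4 * C / c + 1) (by
    have : 0 < 4 * C / c := by positivity
    linarith)
  set μ : ℝ := 4 * C / c + 1 with hμdef
  have hμ1 : 1 ≤ μ := by
    have : 0 < 4 * C / c := by positivity
    linarith
  have h1 : c * μ ^ L * (μ / 2) ^ 2 = c / 4 * μ ^ (L + 2) := by
    rw [pow_add]
    ring
  rw [h1] at hbig
  have h2 : c / 4 * μ ^ (U + 1) ≤ c / 4 * μ ^ (L + 2) :=
    mul_le_mul_of_nonneg_left (pow_le_pow_right₀ hμ1 hLU) (by positivity)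
  have h3 : c / 4 * μ ^ (U + 1) ≤ C * μ ^ U := h2.trans hbig
  have h5 : (c / 4 * μ) * μ ^ U ≤ C * μ ^ U := by
    calc (c / 4 * μ) * μ ^ U = c / 4 * μ ^ (U + 1) := by ring
      _ ≤ _ := h3
  have h6 : 0 < μ ^ U := by positivity
  have h7 : c / 4 * μ ≤ C := le_of_mul_le_mul_right h5 h6
  have h8 : c / 4 * μ = C + c / 4 := by
    rw [hμdef]
    field_simp
  rw [h8] at h7
  linarith

theorem ea_int {σ : Type} (a : σ → ℤ) (w : MvPolynomial σ ℤ) :
    ea (fun q => (a q : ℂ)) w = ((eval a w : ℤ) : ℂ) := by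
  have h : (ea (fun q => (a q : ℂ)) : MvPolynomial σ ℤ →+* ℂ) =
      (Int.castRingHom ℂ).comp (eval a) := by
    apply MvPolynomial.ringHom_ext
    · intro r
      simp [ea]
    · intro i
      simp [ea]
  rw [h]
  rfl

/-- EL/G -/
theorem genP (hA : ElimP) (hC : SepUpP) (hD : SepLowP) (hE : JacP) : GenP := by
  intro V _ _ n k F D _ hSm hn hdg hdim
  have hu : ∀ u : V, ∃ w : MvPolynomial (Σ v, Fin (D + 1) × Fin (n v)) ℤ, w ≠ 0 ∧
      ∀ A : ∀ v, Fin (D + 1) → Fin (n v) → ℂ, ea (fun q => A q.1 q.2.1 q.2.2) w ≠ 0 →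
        ∀ x, ¬ Bu F A u ∅ x := by
    intro u
    obtain ⟨Ω, d, _, hΩ⟩ := hA V V (Ci F u) (fun v => Fin (D + 1) × Fin (n v))
      (fun _ => Fin (D + 1)) (gP F (D + 1) u) (dc F u fun v => Pi.single v 1) gP_MH
    have hiff : ∀ (A : ∀ v, Fin (D + 1) → Fin (n v) → ℂ) (x : Tup n ℂ),
        Bu F A u ∅ x ↔ ∀ w ∈ Ω, ea (fun q => A q.1 q.2.1 q.2.2) w = 0 := by
      intro A x
      rw [← zer_gC, ← (hΩ _).1]
      simp only [map_gP]
    obtain ⟨A, hA'⟩ := exA hC hD hE F D hSm hn hdg u (hdim u)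
    have h1 := hA' 0
    rw [hiff] at h1
    push Not at h1
    obtain ⟨w, hw, hw0⟩ := h1
    refine ⟨w, ?_, ?_⟩
    · rintro rfl
      exact hw0 (map_zero _)
    · intro A' hA'w x hx
      exact hA'w ((hiff A' x).1 hx w hw)
  choose w hw0 hw using hu
  have hprod : ∏ u, w u ≠ 0 := Finset.prod_ne_zero_iff.2 fun u _ => hw0 u
  obtain ⟨a, ha⟩ : ∃ a : (Σ v, Fin (D + 1) × Fin (n v)) → ℤ, eval a (∏ u, w u) ≠ 0 := by
    by_contra hcon
    push Not at hcon
    exact hprod (MvPolynomial.funext fun a => by rw [hcon a, map_zero])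
  refine ⟨fun v j l => a ⟨v, (j, l)⟩, ?_⟩
  rintro x ⟨u, _, hBu⟩
  refine hw u _ ?_ x hBu
  have h2 : eval a (w u) ≠ 0 := by
    intro h
    apply ha
    rw [map_prod]
    exact Finset.prod_eq_zero (Finset.mem_univ u) h
  have h3 : (fun q : (Σ v, Fin (D + 1) × Fin (n v)) =>
      cA (fun v j l => a ⟨v, (j, l)⟩) q.1 q.2.1 q.2.2) = fun q => ((a q : ℤ) : ℂ) := rfl
  rw [h3, ea_int]
  exact_mod_cast h2

end Pool.Agent.N196.EL
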